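import Pool.Agent.Work.MP_2482e1_an.Key

open Complex Metric Filter Topology Asymptotics

namespace Pool.Agent.Work.MP_2482e1_an

variable {E : Type*} [NormedAddCommGroup E] [InnerProductSpace ℂ E]

theorem key_r [CompleteSpace E] {h : E → E} (hh : AnalyticOnNhd ℂ h (ball 0 1)) (h0 : h 0 = 0)
    (hd : fderiv ℂ h 0 = ContinuousLinearMap.id ℂ E)
    (hpos : ∀ z ∈ ball (0 : E) 1, 0 ≤ (inner ℂ z (h z)).re) {A B : E}
    (hAB : ‖A‖ ^ 2 + ‖B‖ ^ 2 = 1) {N : ℕ} (hN : 1 ≤ N) {r : ℝ} (hr0 : 0 < r) (hr1 : r < 1) :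
    0 ≤ r + r ^ (N + 1) * (inner ℂ B (((N + 1).factorial : ℂ)⁻¹ •
      iteratedFDeriv ℂ (N + 1) h 0 (fun _ => A))).re := by
  have hF := differentiableOn_testF hh hAB N hr0 hr1
  have hcoef := re_coeff_nonneg (N + 1) hF (fun ζ hζ => testF_pos hpos hAB N hr0 hr1 hζ)
  have hnorm : ‖((r : ℂ) • A)‖ < 1 := by
    rw [norm_smul]
    simp only [Complex.norm_real, Real.norm_eq_abs, abs_of_pos hr0]
    have : ‖A‖ ≤ 1 := by nlinarith [norm_nonneg A, sq_nonneg ‖B‖]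
    nlinarith [norm_nonneg A]
  -- analyticity at zero
  have hFan : AnalyticAt ℂ (testF h A B N r) 0 :=
    hF.analyticAt (closedBall_mem_nhds 0 one_pos)
  have hG1 : AnalyticAt ℂ (fun ζ : ℂ => (r : ℂ) * ζ ^ (N + 1)) 0 := by fun_prop
  have hslice : AnalyticAt ℂ (fun ζ : ℂ => h (ζ • (r : ℂ) • A)) 0 := by
    have h1 : AnalyticAt ℂ h ((0 : ℂ) • (r : ℂ) • A) := hh _ (by simp)
    exact h1.fun_comp (f := fun ζ : ℂ => ζ • (r : ℂ) • A) (by fun_prop)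
  have hG2 : AnalyticAt ℂ (fun ζ : ℂ => (inner ℂ B (h (ζ • (r : ℂ) • A)) : ℂ)) 0 :=
    ((innerSL ℂ B).analyticAt _).fun_comp hslice
  have hG : AnalyticAt ℂ (fun ζ : ℂ => (r : ℂ) * ζ ^ (N + 1)
      + inner ℂ B (h (ζ • (r : ℂ) • A))) 0 := hG1.fun_add hG2
  have hR : AnalyticAt ℂ (rem h A B N r) 0 := hFan.fun_sub hG
  have hrem := iteratedDeriv_eq_zero_of_isLittleO hR (rem_isLittleO hh h0 hd hAB hN r)
  have hsplit : iteratedDeriv (N + 1) (testF h A B N r) 0 =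
      iteratedDeriv (N + 1) (rem h A B N r) 0 +
      (iteratedDeriv (N + 1) (fun ζ : ℂ => (r : ℂ) * ζ ^ (N + 1)) 0 +
       iteratedDeriv (N + 1) (fun ζ : ℂ => (inner ℂ B (h (ζ • (r : ℂ) • A)) : ℂ)) 0) := by
    rw [← iteratedDeriv_add hG1.contDiffAt hG2.contDiffAt,
      ← iteratedDeriv_add hR.contDiffAt (hG1.add hG2).contDiffAt]
    congr 1
    ext ζ
    simp [rem]
  have hpow : iteratedDeriv (N + 1) (fun ζ : ℂ => (r : ℂ) * ζ ^ (N + 1)) 0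
      = r * (N + 1).factorial := by
    have h1 : (fun ζ : ℂ => (r : ℂ) * ζ ^ (N + 1)) = (r : ℂ) • fun ζ : ℂ => ζ ^ (N + 1) := by
      ext ζ
      simp
    rw [h1, iteratedDeriv_const_smul (by fun_prop), iteratedDeriv_fun_pow_zero]
    simp
  have hin : iteratedDeriv (N + 1) (fun ζ : ℂ => (inner ℂ B (h (ζ • (r : ℂ) • A)) : ℂ)) 0
      = inner ℂ B ((r : ℂ) ^ (N + 1) • iteratedFDeriv ℂ (N + 1) h 0 (fun _ => A)) := by
    have h1 := (innerSL ℂ B).iteratedFDeriv_comp_left (f := fun ζ : ℂ => h (ζ • (r : ℂ) • A))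
      (x := 0) (n := ((N + 1 : ℕ) : WithTop ℕ∞)) hslice.contDiffAt (i := N + 1) le_rfl
    have h2 : iteratedDeriv (N + 1) (fun ζ : ℂ => (inner ℂ B (h (ζ • (r : ℂ) • A)) : ℂ)) 0
        = innerSL ℂ B (iteratedDeriv (N + 1) (fun ζ : ℂ => h (ζ • (r : ℂ) • A)) 0) := by
      rw [iteratedDeriv_eq_iteratedFDeriv, iteratedDeriv_eq_iteratedFDeriv]
      have h3 := congrArg (fun M => M (fun _ : Fin (N + 1) => (1 : ℂ))) h1
      simpa [Function.comp_def] using h3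
    rw [h2, iteratedDeriv_slice hh]
    have h4 := (iteratedFDeriv ℂ (N + 1) h 0).map_smul_univ (fun _ => (r : ℂ)) (fun _ => A)
    rw [h4]
    simp
  rw [hsplit, hrem, hpow, hin, zero_add] at hcoef
  have hfac : ((N + 1).factorial : ℂ) ≠ 0 := by exact_mod_cast (N + 1).factorial_ne_zero
  have hfinal : ((N + 1).factorial : ℂ)⁻¹ * ((r : ℂ) * (N + 1).factorial +
      inner ℂ B ((r : ℂ) ^ (N + 1) • iteratedFDeriv ℂ (N + 1) h 0 (fun _ => A)))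
      = (r : ℂ) + (r ^ (N + 1) : ℝ) * inner ℂ B (((N + 1).factorial : ℂ)⁻¹ •
      iteratedFDeriv ℂ (N + 1) h 0 (fun _ => A)) := by
    rw [inner_smul_right, inner_smul_right]
    push_cast
    field_simp
  rw [hfinal, Complex.add_re, Complex.ofReal_re, Complex.re_ofReal_mul] at hcoef
  exact hcoef

theorem key [CompleteSpace E] {h : E → E} (hh : AnalyticOnNhd ℂ h (ball 0 1)) (h0 : h 0 = 0)
    (hd : fderiv ℂ h 0 = ContinuousLinearMap.id ℂ E)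
    (hpos : ∀ z ∈ ball (0 : E) 1, 0 ≤ (inner ℂ z (h z)).re) {A B : E}
    (hAB : ‖A‖ ^ 2 + ‖B‖ ^ 2 = 1) {N : ℕ} (hN : 1 ≤ N) :
    0 ≤ 1 + (inner ℂ B (((N + 1).factorial : ℂ)⁻¹ •
      iteratedFDeriv ℂ (N + 1) h 0 (fun _ => A))).re := by
  set X := (inner ℂ B (((N + 1).factorial : ℂ)⁻¹ •
      iteratedFDeriv ℂ (N + 1) h 0 (fun _ => A))).re with hX
  have hcont : Tendsto (fun r : ℝ => r + r ^ (N + 1) * X) (𝓝[<] 1) (𝓝 (1 + 1 ^ (N + 1) * X)) := by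
    apply Tendsto.mono_left _ nhdsWithin_le_nhds
    exact (by fun_prop : Continuous (fun r : ℝ => r + r ^ (N + 1) * X)).tendsto 1
  rw [one_pow, one_mul] at hcont
  refine ge_of_tendsto hcont ?_
  have : Set.Ioo (0 : ℝ) 1 ∈ 𝓝[<] (1 : ℝ) := Ioo_mem_nhdsLT one_pos
  filter_upwards [this] with r hr
  exact key_r hh h0 hd hpos hAB hN hr.1 hr.2

end Pool.Agent.Work.MP_2482e1_an
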