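import Pool.Agent.Work.MP_2482e1_an.Defs
import Pool.Agent.Work.MP_2482e1_an.Upper

open Complex Metric Filter Topology Asymptotics

namespace Pool.Agent.Work.MP_2482e1_an

/-- the sharp constant, in a form convenient for the proofs -/
noncomputable def K (m : ℕ) : ℝ := Real.sqrt (((m : ℝ) + 1) ^ (m + 1) / (m : ℝ) ^ m)

theorem K_pos {m : ℕ} (hm : 1 ≤ m) : 0 < K m := by
  have : (0 : ℝ) < m := by exact_mod_cast hm
  unfold K
  positivity

theorem K_sq {m : ℕ} (hm : 1 ≤ m) : K m ^ 2 = ((m : ℝ) + 1) ^ (m + 1) / (m : ℝ) ^ m := by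
  have : (0 : ℝ) < m := by exact_mod_cast hm
  unfold K
  rw [Real.sq_sqrt (by positivity)]

theorem K_eq_rpow {m : ℕ} (hm : 1 ≤ m) :
    K m = ((m : ℝ) + 1) ^ (((m : ℝ) + 1) / 2) / (m : ℝ) ^ ((m : ℝ) / 2) := by
  have hm0 : (0 : ℝ) < m := by exact_mod_cast hm
  unfold K
  rw [Real.sqrt_div (by positivity), Real.sqrt_eq_rpow, Real.sqrt_eq_rpow,
    ← Real.rpow_natCast, ← Real.rpow_natCast, ← Real.rpow_mul (by positivity),
    ← Real.rpow_mul (by positivity)]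
  push_cast
  congr 2 <;> ring

theorem amgm {m : ℕ} (hm : 1 ≤ m) {s t : ℝ} (hs : 0 ≤ s) (ht : 0 ≤ t) :
    ((m : ℝ) + 1) ^ (m + 1) / (m : ℝ) ^ m * (s ^ m * t) ≤ (s + t) ^ (m + 1) := by
  have hm0 : (0 : ℝ) < m := by exact_mod_cast hm
  have h := Real.geom_mean_le_arith_mean2_weighted (w₁ := m / (m + 1)) (w₂ := 1 / (m + 1))
    (p₁ := s / m) (p₂ := t) (by positivity) (by positivity) (by positivity) ht (by field_simp)
  have h2 : (m : ℝ) / (m + 1) * (s / m) + 1 / (m + 1) * t = (s + t) / (m + 1) := by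
    field_simp
  rw [h2] at h
  have h3 := pow_le_pow_left₀ (by positivity) h (m + 1)
  have h4 : ((s / m) ^ ((m : ℝ) / (m + 1)) * t ^ ((1 : ℝ) / (m + 1))) ^ (m + 1)
      = (s / m) ^ m * t := by
    rw [mul_pow, ← Real.rpow_natCast, ← Real.rpow_natCast, ← Real.rpow_mul (by positivity),
      ← Real.rpow_mul ht, ← Real.rpow_natCast (s / m) m]
    push_cast
    congr 1
    · congr 1
      field_simp
    · rw [one_div, inv_mul_cancel₀ (by positivity), Real.rpow_one]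
  rw [h4, div_pow, div_pow] at h3
  rw [div_mul_eq_mul_div, div_le_iff₀ (by positivity)]
  rw [div_mul_eq_mul_div, div_le_div_iff₀ (by positivity) (by positivity)] at h3
  linarith

/-- the elementary inequality behind the extremal map -/
theorem K_mul_le {m : ℕ} (hm : 1 ≤ m) (a b : ℝ) :
    K m * (a ^ m * b) ≤ Real.sqrt (a ^ 2 + b ^ 2) ^ (m + 1) := by
  have h1 := amgm hm (sq_nonneg a) (sq_nonneg b)
  rw [← K_sq hm] at h1
  have hK := (K_pos hm).le
  refine le_of_sq_le_sq ?_ (by positivity)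
  calc (K m * (a ^ m * b)) ^ 2 = K m ^ 2 * ((a ^ 2) ^ m * b ^ 2) := by ring
    _ ≤ (a ^ 2 + b ^ 2) ^ (m + 1) := h1
    _ = (Real.sqrt (a ^ 2 + b ^ 2) ^ (m + 1)) ^ 2 := by
      rw [← pow_mul, mul_comm (m + 1) 2, pow_mul, Real.sq_sqrt (by positivity)]

/-- Upper bound. -/
theorem norm_homPart_le {n : ℕ} {h : Cn n → Cn n} (hh : h ∈ caratheodoryFamily n) {m : ℕ}
    (hm : 2 ≤ m) {u : Cn n} (hu : ‖u‖ = 1) : ‖homPart h m u‖ ≤ K m := by
  obtain ⟨han, h0, hd, hpos⟩ := hh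
  have hpos' : ∀ z ∈ ball (0 : Cn n) 1, 0 ≤ (inner ℂ z (h z)).re := by
    intro z hz
    by_cases hz0 : z = 0
    · simp [hz0]
    · exact (hpos z hz hz0).le
  set P := homPart h m u with hP
  have hm0 : (0 : ℝ) < m := by exact_mod_cast (by omega : 0 < m)
  by_cases hP0 : P = 0
  · rw [hP0, norm_zero]
    exact (K_pos (by omega)).le
  have hPn : 0 < ‖P‖ := norm_pos_iff.mpr hP0
  set α : ℝ := Real.sqrt (m / (m + 1)) with hα
  set β : ℝ := Real.sqrt (1 / (m + 1)) with hβ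
  have hαpos : 0 < α := by positivity
  have hβpos : 0 < β := by positivity
  have hα2 : α ^ 2 = m / (m + 1) := Real.sq_sqrt (by positivity)
  have hβ2 : β ^ 2 = 1 / (m + 1) := Real.sq_sqrt (by positivity)
  set A : Cn n := (α : ℂ) • u with hA
  set B : Cn n := ((-(β / ‖P‖) : ℝ) : ℂ) • P with hB
  have hnA : ‖A‖ = α := by
    rw [hA, norm_smul, hu, Complex.norm_real, Real.norm_eq_abs, abs_of_pos hαpos, mul_one]
  have hnB : ‖B‖ = β := by
    rw [hB, norm_smul, Complex.norm_real, Real.norm_eq_abs, abs_neg,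
      abs_of_pos (by positivity)]
    field_simp
  have hAB : ‖A‖ ^ 2 + ‖B‖ ^ 2 = 1 := by
    rw [hnA, hnB, hα2, hβ2]
    field_simp
  obtain ⟨N, rfl⟩ : ∃ N, m = N + 1 := ⟨m - 1, by omega⟩
  have hk := key han h0 hd hpos' hAB (N := N) (by omega)
  have h1 : iteratedFDeriv ℂ (N + 1) h 0 (fun _ => A) =
      ((α : ℂ) ^ (N + 1)) • iteratedFDeriv ℂ (N + 1) h 0 (fun _ => u) := by
    have := (iteratedFDeriv ℂ (N + 1) h 0).map_smul_univ (fun _ => (α : ℂ)) (fun _ => u)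
    rw [hA, this]
    simp
  have h2 : ((N + 1).factorial : ℂ)⁻¹ • iteratedFDeriv ℂ (N + 1) h 0 (fun _ => A)
      = ((α : ℂ) ^ (N + 1)) • P := by
    rw [h1, hP, homPart, smul_comm]
  rw [h2, hB, inner_smul_left, inner_smul_right, Complex.conj_ofReal,
    inner_self_eq_norm_sq_to_K] at hk
  have h3 : ((((-(β / ‖P‖) : ℝ) : ℂ) * ((α : ℂ) ^ (N + 1) * ((‖P‖ : ℂ)) ^ 2))).re
      = -(α ^ (N + 1) * β * ‖P‖) := by
    have : (((-(β / ‖P‖) : ℝ) : ℂ) * ((α : ℂ) ^ (N + 1) * ((‖P‖ : ℂ)) ^ 2))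
        = ((-(α ^ (N + 1) * β * ‖P‖) : ℝ) : ℂ) := by
      push_cast
      have : (‖P‖ : ℂ) ≠ 0 := by exact_mod_cast hPn.ne'
      field_simp
    rw [this, Complex.ofReal_re]
  have h4 : α ^ (N + 1) * β * ‖P‖ ≤ 1 := by
    have : (((-(β / ‖P‖) : ℝ) : ℂ) * ((α : ℂ) ^ (N + 1) * ((‖P‖ : ℂ)) ^ 2)).re
       = ((((-(β / ‖P‖) : ℝ) : ℂ) * ((α : ℂ) ^ (N + 1) * ((RCLike.ofReal ‖P‖ : ℂ)) ^ 2))).re := rfl
    rw [← this, h3] at hk
    linarith
  have h5 : K (N + 1) * (α ^ (N + 1) * β) = 1 := by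
    have hsq : (K (N + 1) * (α ^ (N + 1) * β)) ^ 2 = 1 := by
      rw [mul_pow, mul_pow, K_sq (by omega), ← pow_mul, mul_comm (N + 1) 2, pow_mul, hα2, hβ2,
        div_pow]
      field_simp
      ring
    have hnn : 0 ≤ K (N + 1) * (α ^ (N + 1) * β) := by
      have := (K_pos (m := N + 1) (by omega)).le
      positivity
    nlinarith
  have h6 : 0 < α ^ (N + 1) * β := by positivity
  have h7 : α ^ (N + 1) * β * ‖P‖ ≤ α ^ (N + 1) * β * K (N + 1) := by linarith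
  exact le_of_mul_le_mul_left h7 h6

/-- the extremal map `h(z) = z + K z_0^m e_1` -/
noncomputable def ext (n m : ℕ) (i j : Fin n) (z : Cn n) : Cn n :=
  z + (z i) ^ m • ((K m : ℂ) • EuclideanSpace.single j (1 : ℂ))

theorem analytic_ext (n m : ℕ) (i j : Fin n) (z : Cn n) : AnalyticAt ℂ (ext n m i j) z := by
  have h1 : AnalyticAt ℂ (fun z : Cn n => z i) z :=
    (EuclideanSpace.proj (𝕜 := ℂ) i : Cn n →L[ℂ] ℂ).analyticAt z
  unfold ext
  exact analyticAt_id.fun_add ((h1.fun_pow m).fun_smul analyticAt_const)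

theorem ext_slice (n m : ℕ) (i j : Fin n) (z : Cn n) (ζ : ℂ) :
    ext n m i j (ζ • z) = ζ ^ 1 • z + ζ ^ m • ((z i) ^ m • ((K m : ℂ) •
      EuclideanSpace.single j (1 : ℂ))) := by
  unfold ext
  rw [PiLp.smul_apply, smul_eq_mul, mul_pow, mul_smul, pow_one]

theorem iteratedDeriv_pow_smul {E : Type*} [NormedAddCommGroup E] [NormedSpace ℂ E]
    (k m : ℕ) (v : E) : iteratedDeriv m (fun ζ : ℂ => ζ ^ k • v) 0 =
      (((if m = k then k.factorial else 0 : ℕ)) : ℂ) • v := by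
  have h1 := (ContinuousLinearMap.toSpanSingleton ℂ v).iteratedFDeriv_comp_left
    (f := fun ζ : ℂ => ζ ^ k) (x := 0) (n := (m : WithTop ℕ∞)) (by fun_prop) (i := m) le_rfl
  have h3 := congrArg (fun M => M (fun _ : Fin m => (1 : ℂ))) h1
  have h4 : iteratedDeriv m (fun ζ : ℂ => ζ ^ k • v) 0 =
      (iteratedDeriv m (fun ζ : ℂ => ζ ^ k) 0) • v := by
    rw [iteratedDeriv_eq_iteratedFDeriv, iteratedDeriv_eq_iteratedFDeriv]
    simpa [Function.comp_def, ContinuousLinearMap.toSpanSingleton_apply] using h3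
  rw [h4, iteratedDeriv_fun_pow_zero]

theorem homPart_ext (n : ℕ) {m : ℕ} (hm : 2 ≤ m) (i j : Fin n) (z : Cn n) :
    homPart (ext n m i j) m z = (z i) ^ m • ((K m : ℂ) • EuclideanSpace.single j (1 : ℂ)) := by
  unfold homPart
  have hh : AnalyticOnNhd ℂ (ext n m i j) (ball 0 1) := fun z _ => analytic_ext n m i j z
  rw [← iteratedDeriv_slice hh z m]
  have h1 : (fun ζ : ℂ => ext n m i j (ζ • z)) =
      (fun ζ : ℂ => ζ ^ 1 • z) + (fun ζ : ℂ => ζ ^ m • ((z i) ^ m • ((K m : ℂ) •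
        EuclideanSpace.single j (1 : ℂ)))) := by
    ext1 ζ
    exact ext_slice n m i j z ζ
  rw [h1, iteratedDeriv_add (by fun_prop) (by fun_prop), iteratedDeriv_pow_smul,
    iteratedDeriv_pow_smul, if_neg (by omega), if_pos rfl]
  have hfac : (m.factorial : ℂ) ≠ 0 := by exact_mod_cast m.factorial_ne_zero
  rw [Nat.cast_zero, zero_smul, zero_add, smul_smul, inv_mul_cancel₀ hfac, one_smul]

theorem ext_mem (n : ℕ) {m : ℕ} (hm : 2 ≤ m) {i j : Fin n} (hij : i ≠ j) :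
    ext n m i j ∈ caratheodoryFamily n := by
  refine ⟨fun z _ => analytic_ext n m i j z, ?_, ?_, ?_⟩
  · simp [ext, show m ≠ 0 by omega]
  · have h1 : HasFDerivAt (fun z : Cn n => z i) (EuclideanSpace.proj (𝕜 := ℂ) i : Cn n →L[ℂ] ℂ) 0 :=
      (EuclideanSpace.proj (𝕜 := ℂ) i : Cn n →L[ℂ] ℂ).hasFDerivAt
    have h2 := (h1.pow m).smul_const ((K m : ℂ) • EuclideanSpace.single j (1 : ℂ) : Cn n)
    have h3 := (hasFDerivAt_id (𝕜 := ℂ) (0 : Cn n)).add h2
    have h4 : HasFDerivAt (ext n m i j) _ 0 := h3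
    rw [h4.fderiv]
    ext z
    simp [show m - 1 ≠ 0 by omega]
  · intro z hz hz0
    have hz1 : ‖z‖ < 1 := by simpa using hz
    have hzp : 0 < ‖z‖ := norm_pos_iff.mpr hz0
    have hin : inner ℂ z (ext n m i j z) = (‖z‖ : ℂ) ^ 2 + (z i) ^ m * ((K m : ℂ) *
        (starRingEnd ℂ) (z j)) := by
      unfold ext
      rw [inner_add_right, inner_smul_right, inner_smul_right, inner_self_eq_norm_sq_to_K,
        EuclideanSpace.inner_single_right]
      simp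
    have hij2 : ‖z i‖ ^ 2 + ‖z j‖ ^ 2 ≤ ‖z‖ ^ 2 := by
      rw [EuclideanSpace.norm_sq_eq]
      have : ∑ k ∈ ({i, j} : Finset (Fin n)), ‖z k‖ ^ 2 = ‖z i‖ ^ 2 + ‖z j‖ ^ 2 :=
        Finset.sum_pair hij
      rw [← this]
      exact Finset.sum_le_sum_of_subset_of_nonneg (Finset.subset_univ _)
        (fun k _ _ => sq_nonneg _)
    have hK := K_mul_le (m := m) (by omega) ‖z i‖ ‖z j‖
    have hs : Real.sqrt (‖z i‖ ^ 2 + ‖z j‖ ^ 2) ≤ ‖z‖ := by
      rw [Real.sqrt_le_left hzp.le]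
      exact hij2
    have hb : ‖(z i) ^ m * ((K m : ℂ) * (starRingEnd ℂ) (z j))‖ ≤ ‖z‖ ^ (m + 1) := by
      rw [norm_mul, norm_mul, norm_pow, RCLike.norm_conj, Complex.norm_real, Real.norm_eq_abs,
        abs_of_pos (K_pos (by omega))]
      calc ‖z i‖ ^ m * (K m * ‖z j‖) = K m * (‖z i‖ ^ m * ‖z j‖) := by ring
        _ ≤ Real.sqrt (‖z i‖ ^ 2 + ‖z j‖ ^ 2) ^ (m + 1) := hK
        _ ≤ ‖z‖ ^ (m + 1) := by gcongr
    have hlt : ‖z‖ ^ (m + 1) < ‖z‖ ^ 2 := by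
      apply pow_lt_pow_right_of_lt_one₀ hzp hz1
      omega
    have hre := (abs_le.mp (Complex.abs_re_le_norm ((z i) ^ m * ((K m : ℂ) *
      (starRingEnd ℂ) (z j))))).1
    rw [hin, Complex.add_re]
    have : (((‖z‖ : ℂ)) ^ 2).re = ‖z‖ ^ 2 := by
      rw [← Complex.ofReal_pow, Complex.ofReal_re]
    rw [this]
    linarith

theorem homNorm_ext (n : ℕ) {m : ℕ} (hm : 2 ≤ m) (i j : Fin n) :
    homNorm (ext n m i j) m = K m := by
  have hnorm : ∀ z : Cn n, ‖homPart (ext n m i j) m z‖ = ‖z i‖ ^ m * K m := by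
    intro z
    rw [homPart_ext n hm, norm_smul, norm_smul, norm_pow, Complex.norm_real, Real.norm_eq_abs,
      abs_of_pos (K_pos (by omega)), PiLp.norm_single, norm_one, mul_one]
  have hgr : IsGreatest {x : ℝ | ∃ z : Cn n, ‖z‖ = 1 ∧ x = ‖homPart (ext n m i j) m z‖} (K m) := by
    constructor
    · refine ⟨EuclideanSpace.single i 1, ?_, ?_⟩
      · simp
      · rw [hnorm]
        simp
    · rintro x ⟨z, hz, rfl⟩
      rw [hnorm]
      have h1 : ‖z i‖ ≤ 1 := hz ▸ PiLp.norm_apply_le z i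
      have h2 : ‖z i‖ ^ m ≤ 1 := pow_le_one₀ (norm_nonneg _) h1
      have h3 := (K_pos (m := m) (by omega)).le
      nlinarith
  exact hgr.csSup_eq

/-- Main theorem. -/
theorem main (n m : ℕ) (hn : 2 ≤ n) (hm : 2 ≤ m) :
    IsGreatest {x : ℝ | ∃ h ∈ caratheodoryFamily n, x = homNorm h m} (K m) := by
  constructor
  · refine ⟨ext n m ⟨0, by omega⟩ ⟨1, by omega⟩, ext_mem n hm (by simp), ?_⟩
    rw [homNorm_ext n hm]
  · rintro x ⟨h, hh, rfl⟩
    unfold homNorm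
    apply csSup_le
    · exact ⟨_, EuclideanSpace.single ⟨0, by omega⟩ 1, by simp, rfl⟩
    · rintro y ⟨z, hz, rfl⟩
      exact norm_homPart_le hh hm hz

end Pool.Agent.Work.MP_2482e1_an
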