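import Mathlib

open Complex Metric Filter Topology Asymptotics

namespace Pool.Agent.Work.MP_2482e1_an

/-- An analytic function which is `o(ζ^m)` at `0` has vanishing `m`-th derivative at `0`. -/
theorem iteratedDeriv_eq_zero_of_isLittleO {F : Type*} [NormedAddCommGroup F] [NormedSpace ℂ F]
    [CompleteSpace F] {f : ℂ → F} {m : ℕ} (hf : AnalyticAt ℂ f 0)
    (ho : f =o[𝓝 0] fun ζ => ζ ^ m) : iteratedDeriv m f 0 = 0 := by
  rw [← norm_le_zero_iff]
  refine le_of_forall_pos_le_add fun ε hε => ?_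
  rw [zero_add]
  have hfac : (0 : ℝ) < m.factorial := by exact_mod_cast m.factorial_pos
  have h1 : ∀ᶠ z in 𝓝 (0 : ℂ), DifferentiableAt ℂ f z :=
    analyticAt_iff_eventually_differentiableAt.mp hf
  have h2 : ∀ᶠ z in 𝓝 (0 : ℂ), ‖f z‖ ≤ (ε / m.factorial) * ‖z ^ m‖ :=
    (isLittleO_iff.mp ho) (by positivity)
  obtain ⟨ρ, hρ, hball⟩ := Metric.eventually_nhds_iff_ball.mp (h1.and h2)
  have hρ2 : 0 < ρ / 2 := by positivity
  have hsub : closedBall (0 : ℂ) (ρ / 2) ⊆ ball 0 ρ := closedBall_subset_ball (by linarith)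
  have hdiff : DifferentiableOn ℂ f (closedBall (0 : ℂ) (ρ / 2)) := fun z hz =>
    (hball z (hsub hz)).1.differentiableWithinAt
  have hdc : DiffContOnCl ℂ f (ball (0 : ℂ) (ρ / 2)) :=
    (hdiff.mono closure_ball_subset_closedBall).diffContOnCl
  have := norm_iteratedDeriv_le_of_forall_mem_sphere_norm_le (C := (ε / m.factorial) * (ρ / 2) ^ m)
    m hρ2 hdc (by
      intro z hz
      have hz' : ‖z‖ = ρ / 2 := by simpa using hz
      have := (hball z (hsub (sphere_subset_closedBall hz))).2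
      rwa [norm_pow, hz'] at this)
  calc ‖iteratedDeriv m f 0‖ ≤ _ := this
    _ = ε := by field_simp

/-- Positivity of the real part on the unit circle passes to the Taylor coefficient. -/
theorem re_coeff_nonneg {F : ℂ → ℂ} (m : ℕ) (hF : DifferentiableOn ℂ F (closedBall 0 1))
    (hpos : ∀ ζ : ℂ, ‖ζ‖ = 1 → 0 ≤ (F ζ / ζ ^ m).re) :
    0 ≤ ((m.factorial : ℂ)⁻¹ * iteratedDeriv m F 0).re := by
  have hci := hF.circleIntegral_one_div_sub_center_pow_smul one_pos m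
  have hav : Real.circleAverage (fun ζ => F ζ / ζ ^ m) 0 1
      = (m.factorial : ℂ)⁻¹ * iteratedDeriv m F 0 := by
    rw [Real.circleAverage_eq_circleIntegral one_ne_zero]
    have : (∮ z in C((0 : ℂ), 1), (z - 0)⁻¹ • (F z / z ^ m))
        = ∮ z in C((0 : ℂ), 1), (1 / (z - 0) ^ (m + 1)) • F z := by
      apply circleIntegral.integral_congr zero_le_one
      intro z hz
      have hz0 : z ≠ 0 := by
        rintro rfl
        simp at hz
      simp only [sub_zero, smul_eq_mul]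
      field_simp
      ring
    rw [this, hci]
    have : (2 * (Real.pi : ℂ) * I) ≠ 0 := two_pi_I_ne_zero
    simp only [smul_eq_mul]
    field_simp
  have hcont : ContinuousOn (fun ζ => F ζ / ζ ^ m) (sphere 0 |(1 : ℝ)|) := by
    rw [abs_one]
    apply ContinuousOn.div (hF.continuousOn.mono sphere_subset_closedBall) (by fun_prop)
    intro z hz
    have hz0 : z ≠ 0 := by
      rintro rfl
      simp at hz
    exact pow_ne_zero _ hz0
  have hint : CircleIntegrable (fun ζ => F ζ / ζ ^ m) 0 1 := hcont.circleIntegrable'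
  have := ContinuousLinearMap.circleAverage_comp_comm (Complex.reCLM) hint
  rw [← hav]
  change 0 ≤ Complex.reCLM (Real.circleAverage (fun ζ => F ζ / ζ ^ m) 0 1)
  rw [← this]
  apply Real.circleAverage_nonneg_of_nonneg
  intro ζ hζ
  have : ‖ζ‖ = 1 := by simpa using hζ
  exact hpos ζ this

variable {E : Type*} [NormedAddCommGroup E] [InnerProductSpace ℂ E]

/-- `2 ‖A‖ ‖B‖ ≤ 1` -/
theorem norm_inner_le_half {A B : E} (hAB : ‖A‖ ^ 2 + ‖B‖ ^ 2 = 1) : ‖inner ℂ A B‖ ≤ 1 / 2 := by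
  have := norm_inner_le_norm (𝕜 := ℂ) A B
  nlinarith [sq_nonneg (‖A‖ - ‖B‖)]

theorem norm_add_smul_sq (A B : E) (w : ℂ) :
    ‖A + w • B‖ ^ 2 = ‖A‖ ^ 2 + ‖w‖ ^ 2 * ‖B‖ ^ 2 + 2 * (w * inner ℂ A B).re := by
  rw [@norm_add_sq ℂ, inner_smul_right, norm_smul]
  simp only [RCLike.re_to_complex]
  ring

theorem norm_one_add_sq (c : ℂ) : ‖1 + c‖ ^ 2 = 1 + ‖c‖ ^ 2 + 2 * c.re := by
  rw [Complex.sq_norm, Complex.normSq_apply, Complex.sq_norm, Complex.normSq_apply]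
  simp
  ring

/-- The test disc stays in the closed unit ball. -/
theorem norm_le_q {A B : E} (hAB : ‖A‖ ^ 2 + ‖B‖ ^ 2 = 1) {w : ℂ} (hw : ‖w‖ ≤ 1) :
    ‖A + w • B‖ ≤ ‖1 + w * inner ℂ A B‖ := by
  have h1 := norm_add_smul_sq A B w
  have h2 := norm_one_add_sq (w * inner ℂ A B)
  have h3 : ‖w‖ ^ 2 * ‖B‖ ^ 2 ≤ ‖B‖ ^ 2 := by
    have : ‖w‖ ^ 2 ≤ 1 := by nlinarith [norm_nonneg w]
    nlinarith [sq_nonneg ‖B‖]
  have h4 : ‖A + w • B‖ ^ 2 ≤ ‖1 + w * inner ℂ A B‖ ^ 2 := by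
    rw [h1, h2]
    nlinarith [sq_nonneg ‖w * inner ℂ A B‖]
  exact le_of_sq_le_sq h4 (norm_nonneg _)

theorem q_ne_zero {A B : E} (hAB : ‖A‖ ^ 2 + ‖B‖ ^ 2 = 1) {w : ℂ} (hw : ‖w‖ ≤ 1) :
    1 + w * inner ℂ A B ≠ 0 := by
  intro h0
  have h1 : ‖w * inner ℂ A B‖ ≤ 1 / 2 := by
    rw [norm_mul]
    have := norm_inner_le_half hAB
    nlinarith [norm_nonneg w, norm_nonneg (inner ℂ A B : ℂ)]
  have h2 : w * inner ℂ A B = -1 := by linear_combination h0
  rw [h2] at h1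
  norm_num at h1

end Pool.Agent.Work.MP_2482e1_an
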