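import Mathlib

/-!
# The Carathéodory family in the Euclidean unit ball of `ℂⁿ`

Definitions used in the statement of the hand-in.
-/

open Metric

namespace Pool.Agent.Work.MP_2482e1_an

/-- `ℂⁿ` with the Euclidean norm and the standard inner product. -/
abbrev Cn (n : ℕ) : Type := EuclideanSpace ℂ (Fin n)

/-- The Carathéodory family `M`: holomorphic maps `h : Bⁿ → ℂⁿ` with `h(0) = 0`, `Dh(0) = I`
and `Re ⟨h(z), z⟩ > 0` for `z ∈ Bⁿ \ {0}`.  (Mathlib's `inner ℂ z w` is conjugate-linear in the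
first entry, so `inner ℂ z (h z)` is `⟨h(z), z⟩` in the notation of the problem.) -/
def caratheodoryFamily (n : ℕ) : Set (Cn n → Cn n) :=
  {h | AnalyticOnNhd ℂ h (ball 0 1) ∧ h 0 = 0 ∧
    fderiv ℂ h 0 = ContinuousLinearMap.id ℂ (Cn n) ∧
    ∀ z ∈ ball (0 : Cn n) 1, z ≠ 0 → 0 < (inner ℂ z (h z)).re}

/-- The homogeneous polynomial map `P_m(z) = (1/m!) D^m h(0)(z, …, z)`. -/
noncomputable def homPart {n : ℕ} (h : Cn n → Cn n) (m : ℕ) (z : Cn n) : Cn n :=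
  (m.factorial : ℂ)⁻¹ • iteratedFDeriv ℂ m h 0 (fun _ => z)

/-- `‖P_m‖`, the maximum of `‖P_m(z)‖` over the unit sphere `‖z‖ = 1`. -/
noncomputable def homNorm {n : ℕ} (h : Cn n → Cn n) (m : ℕ) : ℝ :=
  sSup {x : ℝ | ∃ z : Cn n, ‖z‖ = 1 ∧ x = ‖homPart h m z‖}

/-- `C_{m,n}`, the supremum of `‖P_m‖` over the Carathéodory family `M`. -/
noncomputable def coeffConst (m n : ℕ) : ℝ :=
  sSup {x : ℝ | ∃ h ∈ caratheodoryFamily n, x = homNorm h m}

end Pool.Agent.Work.MP_2482e1_an
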