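import Pool.Agent.Work.MP_2482e1_an.Basic

open Complex Metric Filter Topology Asymptotics

namespace Pool.Agent.Work.MP_2482e1_an

variable {E : Type*} [NormedAddCommGroup E] [InnerProductSpace ℂ E]

/-- Restriction to a complex line through the origin. -/
theorem iteratedDeriv_slice [CompleteSpace E] {h : E → E} (hh : AnalyticOnNhd ℂ h (ball 0 1))
    (x : E) (m : ℕ) :
    iteratedDeriv m (fun ζ : ℂ => h (ζ • x)) 0 = iteratedFDeriv ℂ m h 0 (fun _ => x) := by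
  set L : ℂ →L[ℂ] E := ContinuousLinearMap.toSpanSingleton ℂ x with hL
  have hs : IsOpen (ball (0 : E) 1) := isOpen_ball
  have hs' : IsOpen (L ⁻¹' ball (0 : E) 1) := hs.preimage L.continuous
  have h0 : L 0 ∈ ball (0 : E) 1 := by simp
  have hc : ContDiffOn ℂ (m : WithTop ℕ∞) h (ball 0 1) := hh.contDiffOn hs.uniqueDiffOn
  have key := L.iteratedFDerivWithin_comp_right hc hs.uniqueDiffOn hs'.uniqueDiffOn h0
    (i := m) le_rfl
  rw [iteratedFDerivWithin_of_isOpen m hs' (by simp),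
    iteratedFDerivWithin_of_isOpen m hs h0] at key
  have h1 : (fun ζ : ℂ => h (ζ • x)) = h ∘ L := by
    ext ζ
    simp [hL, ContinuousLinearMap.toSpanSingleton_apply]
  rw [iteratedDeriv_eq_iteratedFDeriv, h1, key,
    ContinuousMultilinearMap.compContinuousLinearMap_apply]
  simp [hL, ContinuousLinearMap.toSpanSingleton_apply]

/-- the test disc -/
noncomputable def disc (A B : E) (N : ℕ) (ζ : ℂ) : E :=
  ζ • (1 + ζ ^ N * inner ℂ A B)⁻¹ • (A + ζ ^ N • B)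

/-- the test function -/
noncomputable def testF (h : E → E) (A B : E) (N : ℕ) (r : ℂ) (ζ : ℂ) : ℂ :=
  (1 + ζ ^ N * inner ℂ A B) *
    (ζ ^ N * inner ℂ A (h (r • disc A B N ζ)) + inner ℂ B (h (r • disc A B N ζ)))

theorem norm_disc_le {A B : E} (hAB : ‖A‖ ^ 2 + ‖B‖ ^ 2 = 1) (N : ℕ) {ζ : ℂ} (hζ : ‖ζ‖ ≤ 1) :
    ‖disc A B N ζ‖ ≤ 1 := by
  have hw : ‖ζ ^ N‖ ≤ 1 := by
    rw [norm_pow]; exact pow_le_one₀ (norm_nonneg _) hζ
  have h1 := norm_le_q hAB hw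
  have h2 : 0 < ‖1 + ζ ^ N * inner ℂ A B‖ := norm_pos_iff.mpr (q_ne_zero hAB hw)
  unfold disc
  rw [norm_smul, norm_smul, norm_inv]
  have h3 : ‖1 + ζ ^ N * inner ℂ A B‖⁻¹ * ‖A + ζ ^ N • B‖ ≤ 1 := by
    rw [inv_mul_le_iff₀ h2, mul_one]; exact h1
  calc ‖ζ‖ * (‖1 + ζ ^ N * inner ℂ A B‖⁻¹ * ‖A + ζ ^ N • B‖) ≤ 1 * 1 := by
        gcongr
    _ = 1 := by norm_num

theorem differentiableAt_disc {A B : E} (hAB : ‖A‖ ^ 2 + ‖B‖ ^ 2 = 1) (N : ℕ) {ζ : ℂ}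
    (hζ : ‖ζ‖ ≤ 1) : DifferentiableAt ℂ (disc A B N) ζ := by
  have hw : ‖ζ ^ N‖ ≤ 1 := by
    rw [norm_pow]; exact pow_le_one₀ (norm_nonneg _) hζ
  have h2 : 1 + ζ ^ N * inner ℂ A B ≠ 0 := q_ne_zero hAB hw
  unfold disc
  apply DifferentiableAt.fun_smul differentiableAt_id
  apply DifferentiableAt.fun_smul
  · have : DifferentiableAt ℂ (fun i : ℂ => 1 + i ^ N * inner ℂ A B) ζ := by fun_prop
    exact this.fun_inv h2
  · fun_prop

theorem differentiableOn_testF {h : E → E} (hh : AnalyticOnNhd ℂ h (ball 0 1)) {A B : E}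
    (hAB : ‖A‖ ^ 2 + ‖B‖ ^ 2 = 1) (N : ℕ) {r : ℝ} (hr0 : 0 < r) (hr1 : r < 1) :
    DifferentiableOn ℂ (testF h A B N r) (closedBall 0 1) := by
  intro ζ hζ
  have hζ' : ‖ζ‖ ≤ 1 := by simpa using hζ
  apply DifferentiableAt.differentiableWithinAt
  have hd := differentiableAt_disc hAB N hζ'
  have hmem : (r : ℂ) • disc A B N ζ ∈ ball (0 : E) 1 := by
    have := norm_disc_le hAB N hζ'
    rw [mem_ball_zero_iff, norm_smul]
    simp only [Complex.norm_real, Real.norm_eq_abs, abs_of_pos hr0]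
    nlinarith [norm_nonneg (disc A B N ζ)]
  have hhd : DifferentiableAt ℂ h ((r : ℂ) • disc A B N ζ) := (hh _ hmem).differentiableAt
  have hcomp : DifferentiableAt ℂ (fun ζ => h ((r : ℂ) • disc A B N ζ)) ζ :=
    DifferentiableAt.comp (f := fun ζ => (r : ℂ) • disc A B N ζ) ζ hhd (hd.const_smul _)
  have hA : DifferentiableAt ℂ (fun ζ => inner ℂ A (h ((r : ℂ) • disc A B N ζ))) ζ :=
    ((innerSL ℂ A).differentiableAt).comp ζ hcomp
  have hB : DifferentiableAt ℂ (fun ζ => inner ℂ B (h ((r : ℂ) • disc A B N ζ))) ζ :=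
    ((innerSL ℂ B).differentiableAt).comp ζ hcomp
  unfold testF
  fun_prop

theorem testF_pos {h : E → E} 
    (hpos : ∀ z ∈ ball (0 : E) 1, 0 ≤ (inner ℂ z (h z)).re) {A B : E}
    (hAB : ‖A‖ ^ 2 + ‖B‖ ^ 2 = 1) (N : ℕ) {r : ℝ} (hr0 : 0 < r) (hr1 : r < 1) {ζ : ℂ}
    (hζ : ‖ζ‖ = 1) : 0 ≤ (testF h A B N r ζ / ζ ^ (N + 1)).re := by
  have hw : ‖ζ ^ N‖ ≤ 1 := by
    rw [norm_pow, hζ, one_pow]
  have hq : 1 + ζ ^ N * inner ℂ A B ≠ 0 := q_ne_zero hAB hw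
  have hζ0 : ζ ≠ 0 := by
    rintro rfl
    simp at hζ
  have hconj : (starRingEnd ℂ) ζ = ζ⁻¹ := by
    rw [Complex.inv_eq_conj hζ]
  set x := h ((r : ℂ) • disc A B N ζ) with hx
  set q := 1 + ζ ^ N * inner ℂ A B with hqdef
  have hqc : (starRingEnd ℂ) q ≠ 0 := by simpa using hq
  have h1 : testF h A B N r ζ / ζ ^ (N + 1) = (Complex.normSq q : ℂ) * inner ℂ (disc A B N ζ) x := by
    unfold testF disc
    rw [← hqdef]
    have : h ((r : ℂ) • ζ • q⁻¹ • (A + ζ ^ N • B)) = x := by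
      rw [hx]; rfl
    rw [this, inner_smul_left, inner_smul_left, inner_add_left, inner_smul_left,
      Complex.normSq_eq_conj_mul_self, map_pow, map_inv₀, hconj, inv_pow]
    field_simp
    ring
  have hmem : (r : ℂ) • disc A B N ζ ∈ ball (0 : E) 1 := by
    have := norm_disc_le hAB N hζ.le
    rw [mem_ball_zero_iff, norm_smul]
    simp only [Complex.norm_real, Real.norm_eq_abs, abs_of_pos hr0]
    nlinarith [norm_nonneg (disc A B N ζ)]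
  have h2 := hpos _ hmem
  rw [← hx, inner_smul_left, Complex.conj_ofReal, Complex.re_ofReal_mul] at h2
  have h3 : 0 ≤ (inner ℂ (disc A B N ζ) x).re := by
    by_contra hneg
    push Not at hneg
    nlinarith
  rw [h1, Complex.re_ofReal_mul]
  exact mul_nonneg (Complex.normSq_nonneg _) h3

/-- the remainder -/
noncomputable def rem (h : E → E) (A B : E) (N : ℕ) (r : ℂ) (ζ : ℂ) : ℂ :=
  testF h A B N r ζ - (r * ζ ^ (N + 1) + inner ℂ B (h (ζ • r • A)))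

theorem rem_eq {h : E → E} {A B : E} (hAB : ‖A‖ ^ 2 + ‖B‖ ^ 2 = 1) (N : ℕ) (r : ℂ) {ζ : ℂ}
    (hζ : ‖ζ‖ ≤ 1) :
    rem h A B N r ζ =
      r * ζ ^ (2 * N + 1) * inner ℂ A B
      + (1 + ζ ^ N * inner ℂ A B) * (ζ ^ N *
          inner ℂ A (h (r • disc A B N ζ) - r • disc A B N ζ))
      + inner ℂ A B * (ζ ^ N * inner ℂ B (h (r • disc A B N ζ) - r • disc A B N ζ))
      + inner ℂ B ((h (r • disc A B N ζ) - r • disc A B N ζ) - (h (ζ • r • A) - ζ • r • A)) := by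
  have hw : ‖ζ ^ N‖ ≤ 1 := by
    rw [norm_pow]; exact pow_le_one₀ (norm_nonneg _) hζ
  have hq : 1 + ζ ^ N * inner ℂ A B ≠ 0 := q_ne_zero hAB hw
  have hAB' : (inner ℂ A A : ℂ) + inner ℂ B B = 1 := by
    rw [inner_self_eq_norm_sq_to_K, inner_self_eq_norm_sq_to_K]
    have := congrArg (fun x : ℝ => (x : ℂ)) hAB
    push_cast at this
    simpa using this
  unfold rem testF
  set x := h (r • disc A B N ζ) with hx
  set y := h (ζ • r • A) with hy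
  have hzA : inner ℂ A (disc A B N ζ) = ζ * ((1 + ζ ^ N * inner ℂ A B)⁻¹ *
      (inner ℂ A A + ζ ^ N * inner ℂ A B)) := by
    unfold disc
    rw [inner_smul_right, inner_smul_right, inner_add_right, inner_smul_right]
  have hzB : inner ℂ B (disc A B N ζ) = ζ * ((1 + ζ ^ N * inner ℂ A B)⁻¹ *
      (inner ℂ B A + ζ ^ N * inner ℂ B B)) := by
    unfold disc
    rw [inner_smul_right, inner_smul_right, inner_add_right, inner_smul_right]
  simp only [inner_sub_right, inner_smul_right, hzA, hzB]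
  have hBB : (inner ℂ B B : ℂ) = 1 - inner ℂ A A := by linear_combination hAB'
  rw [hBB]
  set q := 1 + ζ ^ N * inner ℂ A B with hqdef
  field_simp
  rw [hqdef]
  ring

theorem disc_sub (A B : E) {N : ℕ} {ζ : ℂ} (hq : 1 + ζ ^ N * inner ℂ A B ≠ 0) :
    disc A B N ζ - ζ • A =
      (ζ ^ (N + 1)) • (1 + ζ ^ N * inner ℂ A B)⁻¹ • (B - (inner ℂ A B : ℂ) • A) := by
  have h1 : ζ • A = ζ • (1 + ζ ^ N * inner ℂ A B)⁻¹ • (1 + ζ ^ N * inner ℂ A B) • A := by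
    rw [smul_smul _ _ A, inv_mul_cancel₀ hq, one_smul]
  rw [h1]
  unfold disc
  generalize (1 + ζ ^ N * inner ℂ A B)⁻¹ = p
  module

theorem disc_isBigO {A B : E} (hAB : ‖A‖ ^ 2 + ‖B‖ ^ 2 = 1) (N : ℕ) :
    disc A B N =O[𝓝 0] fun ζ => ζ := by
  have hball : ∀ᶠ ζ : ℂ in 𝓝 0, ‖ζ‖ ≤ 1 := by
    filter_upwards [Metric.ball_mem_nhds (0 : ℂ) one_pos] with ζ hζ
    exact (by simpa using hζ : ‖ζ‖ < 1).le
  apply IsBigO.of_bound 2
  filter_upwards [hball] with ζ hζ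
  have hw : ‖ζ ^ N‖ ≤ 1 := by
    rw [norm_pow]; exact pow_le_one₀ (norm_nonneg _) hζ
  have h1 := norm_le_q hAB hw
  have h2 : 0 < ‖1 + ζ ^ N * inner ℂ A B‖ := norm_pos_iff.mpr (q_ne_zero hAB hw)
  unfold disc
  rw [norm_smul, norm_smul, norm_inv]
  have h3 : ‖1 + ζ ^ N * inner ℂ A B‖⁻¹ * ‖A + ζ ^ N • B‖ ≤ 1 := by
    rw [inv_mul_le_iff₀ h2, mul_one]; exact h1
  nlinarith [norm_nonneg ζ]

theorem disc_sub_isBigO {A B : E} (hAB : ‖A‖ ^ 2 + ‖B‖ ^ 2 = 1) (N : ℕ) :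
    (fun ζ => disc A B N ζ - ζ • A) =O[𝓝 0] fun ζ => ζ ^ (N + 1) := by
  have hball : ∀ᶠ ζ : ℂ in 𝓝 0, ‖ζ‖ ≤ 1 := by
    filter_upwards [Metric.ball_mem_nhds (0 : ℂ) one_pos] with ζ hζ
    exact (by simpa using hζ : ‖ζ‖ < 1).le
  apply IsBigO.of_bound (2 * ‖B - (inner ℂ A B : ℂ) • A‖)
  filter_upwards [hball] with ζ hζ
  have hw : ‖ζ ^ N‖ ≤ 1 := by
    rw [norm_pow]; exact pow_le_one₀ (norm_nonneg _) hζ
  have hqne := q_ne_zero hAB hw
  have hlow : 1 / 2 ≤ ‖1 + ζ ^ N * inner ℂ A B‖ := by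
    have h1 : ‖ζ ^ N * inner ℂ A B‖ ≤ 1 / 2 := by
      rw [norm_mul]
      have := norm_inner_le_half hAB
      nlinarith [norm_nonneg (ζ ^ N), norm_nonneg (inner ℂ A B : ℂ)]
    have h2 := norm_sub_le (1 + ζ ^ N * inner ℂ A B) (ζ ^ N * inner ℂ A B)
    rw [add_sub_cancel_right, norm_one] at h2
    linarith
  rw [disc_sub A B hqne, norm_smul, norm_smul, norm_inv]
  have h3 : ‖1 + ζ ^ N * inner ℂ A B‖⁻¹ ≤ 2 := by
    rw [inv_le_comm₀ (by linarith) (by norm_num)]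
    linarith
  have h4 : ‖1 + ζ ^ N * inner ℂ A B‖⁻¹ * ‖B - (inner ℂ A B : ℂ) • A‖
      ≤ 2 * ‖B - (inner ℂ A B : ℂ) • A‖ := by gcongr
  calc ‖ζ ^ (N + 1)‖ * (‖1 + ζ ^ N * inner ℂ A B‖⁻¹ * ‖B - (inner ℂ A B : ℂ) • A‖)
      ≤ ‖ζ ^ (N + 1)‖ * (2 * ‖B - (inner ℂ A B : ℂ) • A‖) := by gcongr
    _ = _ := by ring

/-- The remainder is `o(ζ^(N+1))`. -/
theorem rem_isLittleO {h : E → E} (hh : AnalyticOnNhd ℂ h (ball 0 1)) (h0 : h 0 = 0)
    (hd : fderiv ℂ h 0 = ContinuousLinearMap.id ℂ E) {A B : E}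
    (hAB : ‖A‖ ^ 2 + ‖B‖ ^ 2 = 1) {N : ℕ} (hN : 1 ≤ N) (r : ℂ) :
    rem h A B N r =o[𝓝 0] fun ζ => ζ ^ (N + 1) := by
  have hball : ∀ᶠ ζ : ℂ in 𝓝 0, ‖ζ‖ ≤ 1 := by
    filter_upwards [Metric.ball_mem_nhds (0 : ℂ) one_pos] with ζ hζ
    exact (by simpa using hζ : ‖ζ‖ < 1).le
  have hcont0 : Tendsto (fun ζ : ℂ => ζ) (𝓝 0) (𝓝 0) := tendsto_id
  -- strict differentiability of Φ = h - id at 0
  have hstr : HasStrictFDerivAt (fun x => h x - x) (0 : E →L[ℂ] E) 0 := by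
    have h1 := (hh 0 (by simp)).hasStrictFDerivAt
    rw [hd] at h1
    have h2 := h1.sub (hasStrictFDerivAt_id (𝕜 := ℂ) (0 : E))
    rw [sub_self] at h2
    exact h2
  have hlo : (fun x => h x - x) =o[𝓝 0] fun x : E => x := by
    have := hstr.hasFDerivAt.isLittleO
    simpa [h0] using this
  have hlo2 : (fun p : E × E => (h p.1 - p.1) - (h p.2 - p.2)) =o[𝓝 (0, 0)]
      fun p => p.1 - p.2 := by
    have := hstr.isLittleO
    simpa using this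
  -- the disc tends to zero
  have hz : (fun ζ => r • disc A B N ζ) =O[𝓝 0] fun ζ => ζ := (disc_isBigO hAB N).const_smul_left r
  have hzt : Tendsto (fun ζ => r • disc A B N ζ) (𝓝 0) (𝓝 0) := hz.trans_tendsto hcont0
  have hA : (fun ζ : ℂ => ζ • r • A) =O[𝓝 0] fun ζ => ζ := by
    apply IsBigO.of_bound ‖r • A‖
    filter_upwards with ζ
    rw [norm_smul, mul_comm]
  have hAt : Tendsto (fun ζ : ℂ => ζ • r • A) (𝓝 0) (𝓝 0) := hA.trans_tendsto hcont0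
  have hΦ : (fun ζ => h (r • disc A B N ζ) - r • disc A B N ζ) =o[𝓝 0] fun ζ : ℂ => ζ :=
    (hlo.comp_tendsto hzt).trans_isBigO hz
  have hΦ2 : (fun ζ => (h (r • disc A B N ζ) - r • disc A B N ζ) - (h (ζ • r • A) - ζ • r • A))
      =o[𝓝 0] fun ζ : ℂ => ζ ^ (N + 1) := by
    have h1 := hlo2.comp_tendsto (hzt.prodMk_nhds hAt)
    refine h1.trans_isBigO ?_
    have h2 := (disc_sub_isBigO hAB N).const_smul_left r
    refine h2.congr_left fun ζ => ?_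
    change r • (disc A B N ζ - ζ • A) = r • disc A B N ζ - ζ • r • A
    rw [smul_sub, smul_comm r ζ A]
  have hq : (fun ζ : ℂ => 1 + ζ ^ N * inner ℂ A B) =O[𝓝 0] fun _ : ℂ => (1 : ℂ) := by
    have : ContinuousAt (fun ζ : ℂ => 1 + ζ ^ N * inner ℂ A B) 0 := by fun_prop
    exact this.tendsto.isBigO_one ℂ
  have hin : ∀ (C : E) (g : ℂ → E) (k : ℂ → ℂ), g =o[𝓝 0] k →
      (fun ζ => (inner ℂ C (g ζ) : ℂ)) =o[𝓝 0] k := by
    intro C g k hg
    exact ((innerSL ℂ C).isBigO_comp g (𝓝 0)).trans_isLittleO hg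
  have hpowN : ∀ g : ℂ → ℂ, g =o[𝓝 0] (fun ζ : ℂ => ζ) →
      (fun ζ => ζ ^ N * g ζ) =o[𝓝 0] fun ζ : ℂ => ζ ^ (N + 1) := by
    intro g hg
    have := (isBigO_refl (fun ζ : ℂ => ζ ^ N) (𝓝 0)).mul_isLittleO hg
    simpa [pow_succ] using this
  have t1 : (fun ζ : ℂ => r * ζ ^ (2 * N + 1) * inner ℂ A B) =o[𝓝 0] fun ζ : ℂ => ζ ^ (N + 1) := by
    have : (fun ζ : ℂ => ζ ^ (2 * N + 1)) =o[𝓝 0] fun ζ : ℂ => ζ ^ (N + 1) :=
      isLittleO_pow_pow (by omega)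
    have h2 := this.const_mul_left (r * inner ℂ A B)
    refine h2.congr_left fun ζ => ?_
    ring
  have t2 := hq.mul_isLittleO (hpowN _ (hin A _ _ hΦ))
  have t3 := (hpowN _ (hin B _ _ hΦ)).const_mul_left (inner ℂ A B)
  have t4 := hin B _ _ hΦ2
  have t2' : (fun ζ : ℂ => (1 + ζ ^ N * inner ℂ A B) * (ζ ^ N *
          inner ℂ A (h (r • disc A B N ζ) - r • disc A B N ζ))) =o[𝓝 0]
      fun ζ : ℂ => ζ ^ (N + 1) := by
    refine t2.trans_isBigO ?_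
    apply IsBigO.of_bound 1
    filter_upwards with ζ
    simp
  have total := ((t1.add t2').add t3).add t4
  refine total.congr' ?_ (EventuallyEq.refl _ _)
  filter_upwards [hball] with ζ hζ
  rw [rem_eq hAB N r hζ]

end Pool.Agent.Work.MP_2482e1_an
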